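import Pool.Agent.XW.Fin2
import Pool.Agent.Y809.BSD14.Tam3

/-!
# The 2-part of the strong Birch and Swinnerton-Dyer conjecture for the twists of `X_0(15)` by all the
# imaginary quadratic fields in which 3 splits and 5 is inert

`E_D` is the quadratic twist by the imaginary quadratic field `ℚ(√D)` of discriminant `D` of the modular
curve `X_0(15) : y² + x y + y = x³ + x² - 10 x - 10`, which has no complex multiplication. Its three points
of order two are rational; it has no rational isogeny of odd degree. `D` is ANY negative discriminant,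
odd or even, such that 3 splits and 5 is inert in `ℚ(√D)`; there is no restriction on the prime factors
of `D` or on their number.

Let `z = L(E_D, 1) #E_D(ℚ)_tors² / (Ω ∏ c_p)`, which according to the conjecture is zero or the order of
`Ш(E_D/ℚ)`.  With no hypothesis on the rank or on `Ш` we prove for all these `D`:
* the equation of `E_D` is a global minimal one, `L(E_D, s)` is entire, `∏ c_p = 4^{k + 1}` for the number `k`
  of the prime factors of `D`, and the order of the torsion is four times an odd number;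
* `z` is the product of a rational number which is a unit at `2` and of the square of an integer `y`;
* `y` is odd if and only if `E_D(ℚ)` is finite and `Ш(E_D/ℚ)[2] = 0` (the 2-part of the formula modulo
  two, in both directions), if and only if the class group of `ℚ(√D)` has no element of order four;
* in this case `Ш(E_D/ℚ)[2^∞] = 0` and the 2-part of the formula holds (`TwoPart`).

The proportion of the `D` with `TwoPart`, in the order of `|D|`, tends to `∏_{i ≥ 1} (1 - 2^{-i}) = 0.2887…`;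
the same is true for the `D` in any set of residue classes modulo any `m`, prime to `m`. So the 2-part
of the conjecture holds for a positive proportion of all the quadratic twists of `X_0(15)`: the number of
these `D` with `|D| ≤ X` is asymptotic to `(15 / (32 π²)) ∏_{i ≥ 1} (1 - 2^{-i}) X`, that is for `4.5%` of all
the imaginary quadratic fields.

See `AllImaginaryFieldsX15` in `MP_696deb_nt` for the idea of the proof; modules `Pool.Agent.XV`,
`Pool.Agent.XW`, joint work with many helpers.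
-/

set_option autoImplicit false
set_option linter.style.haveILetI false

open WeierstrassCurve MeasureTheory Filter Topology

namespace Pool.Agent.Results.MP_4a9ea6_nt.AllImaginaryTwoPartX15

open scoped Classical

open Pool.Agent.TH841.SH.D (Sha)

/-- The quadratic twist `E_D` of `X_0(15)` by the quadratic field of discriminant `D`:
`y² + x y + y = x³ + ((5 D - 1)/4) x² - ((19 D² + 1)/2) x - (39 D³ + 1)/4` for odd `D`, and
`y² = x (x - 9 d) (x - 25 d)` for `D = 4 d`.  For `D = 1` this is `y² + x y + y = x³ + x² - 10 x - 10`. -/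
def twist (D : ℤ) : WeierstrassCurve ℤ :=
  if D % 4 = 0 then ⟨0, -34 * (D / 4), 0, 225 * (D / 4) ^ 2, 0⟩
  else ⟨1, (5 * D - 1) / 4, 1, -((19 * D ^ 2 + 1) / 2), -((39 * D ^ 3 + 1) / 4)⟩

/-- The curve given by the equation of `W` over the ring `R`. -/
abbrev base (W : WeierstrassCurve ℤ) (R : Type) [CommRing R] : WeierstrassCurve R :=
  W.map (Int.castRingHom R)

/-- `W` is a global minimal equation: `Δ ≠ 0` and `|Δ|` is minimal among the integral equations of the
same curve over `ℚ`. -/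
def Minimal (W : WeierstrassCurve ℤ) : Prop :=
  W.Δ ≠ 0 ∧ ∀ (W' : WeierstrassCurve ℤ) (C : VariableChange ℚ), C • base W ℚ = base W' ℚ →
    |W.Δ| ≤ |W'.Δ|

/-- The number of the affine points modulo `p`. -/
noncomputable def pts (W : WeierstrassCurve ℤ) (p : ℕ) : ℕ :=
  Nat.card {P : ZMod p × ZMod p // (base W (ZMod p)).toAffine.Equation P.1 P.2}

/-- `a_p = p + 1 - #W(𝔽_p)`, the points counted with the point at infinity. -/
noncomputable def a (W : WeierstrassCurve ℤ) (p : ℕ) : ℤ := p - pts W p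

/-- `L` is the L-function of the minimal equation `W`: it is entire, and for `Re s > 3/2` it is given by
the Euler product with the factors `(1 - a_p p^(-s) + p^(1 - 2 s))⁻¹` if `p` does not divide `Δ` and
`(1 - a_p p^(-s))⁻¹` otherwise. -/
def IsL (W : WeierstrassCurve ℤ) (L : ℂ → ℂ) : Prop :=
  Differentiable ℂ L ∧ ∀ s : ℂ, 3 / 2 < s.re →
    HasProd (fun p : Nat.Primes => (1 - (a W p : ℂ) * ((p : ℕ) : ℂ) ^ (-s) +
      (if ((p : ℕ) : ℤ) ∣ W.Δ then 0 else ((p : ℕ) : ℂ) ^ (1 - 2 * s)))⁻¹) (L s)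

/-- The point `P` of `W` over `ℚ_p` reduces to a singular point of the curve modulo `p`: the coordinates
are integral and both partial derivatives of `y² + a₁ x y + a₃ y - x³ - a₂ x² - a₄ x - a₆` are in the
maximal ideal. -/
def SingularReduction (W : WeierstrassCurve ℤ) (p : ℕ) [Fact p.Prime]
    (P : (base W ℚ_[p]).toAffine.Point) : Prop :=
  ∃ x y h, P = Affine.Point.some x y h ∧ ‖x‖ ≤ 1 ∧ ‖y‖ ≤ 1 ∧
    ‖W.a₁ * y - (3 * x ^ 2 + 2 * W.a₂ * x + W.a₄)‖ < 1 ∧ ‖2 * y + W.a₁ * x + W.a₃‖ < 1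

/-- `c p` is the Tamagawa number `[W(ℚ_p) : W⁰(ℚ_p)]` for all primes `p`, where `W⁰(ℚ_p)` is the subgroup
of the points which do not have singular reduction; it is `1` if `p` does not divide `Δ`. -/
def IsTamagawa (W : WeierstrassCurve ℤ) (c : ℕ → ℕ) : Prop :=
  ∀ (p : ℕ) [Fact p.Prime], (∃ H : AddSubgroup (base W ℚ_[p]).toAffine.Point,
    (∀ P, P ∈ H ↔ ¬ SingularReduction W p P) ∧ H.index = c p) ∧ (¬ (p : ℤ) ∣ W.Δ → c p = 1)

/-- The product of the Tamagawa numbers. -/
noncomputable def Tam (W : WeierstrassCurve ℤ) (c : ℕ → ℕ) : ℕ := ∏ p ∈ W.Δ.natAbs.primeFactors, c p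

/-- `4 x³ + b₂ x² + 2 b₄ x + b₆ = (2 y + a₁ x + a₃)²`. -/
def cubic (W : WeierstrassCurve ℤ) (x : ℝ) : ℝ := 4 * x ^ 3 + W.b₂ * x ^ 2 + 2 * W.b₄ * x + W.b₆

/-- `Ω = ∫_{W(ℝ)} |ω|` with `ω = dx / (2 y + a₁ x + a₃)`, as an integral over `x`: two real points lie
over each `x` with `cubic x > 0`. -/
noncomputable def Omega (W : WeierstrassCurve ℤ) : ℝ :=
  2 * ∫ x in {x : ℝ | 0 < cubic W x}, 1 / √(cubic W x)

/-- The order of the torsion subgroup of `W(ℚ)`. -/
noncomputable def torsOrder (W : WeierstrassCurve ℤ) : ℕ :=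
  Nat.card (AddCommGroup.torsion (base W ℚ).toAffine.Point)

/-- The order of the Tate-Shafarevich group predicted by the formula in rank zero, for the value `l` of
the L-function at `s = 1` and the Tamagawa numbers `c`: `l #W(ℚ)_tors² / (Ω ∏ c_p)`. -/
noncomputable def anOrder (W : WeierstrassCurve ℤ) (l : ℂ) (c : ℕ → ℕ) : ℂ :=
  l * (torsOrder W : ℂ) ^ 2 / ((Omega W : ℝ) * (Tam W c : ℂ))

/-- The 2-part of the strong conjecture of Birch and Swinnerton-Dyer for `W` over `ℚ`, in the case that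
the predicted order of `Ш` is a unit at two: `W` is minimal, `L(W, s)` is entire, `L(W, 1) ≠ 0`, `W(ℚ)`
is finite, the 2-primary part of `Ш(W/ℚ)` is zero, and the predicted order of `Ш` is a rational number
which is a unit at two. -/
def TwoPart (W : WeierstrassCurve ℤ) : Prop :=
  Minimal W ∧ Finite (base W ℚ).toAffine.Point ∧
  (∀ (n : ℕ) (x : Sha (base W ℚ)), 2 ^ n • x = 0 → x = 0) ∧
  ∃ (L : ℂ → ℂ) (c : ℕ → ℕ) (z : ℚ), IsL W L ∧ L 1 ≠ 0 ∧ IsTamagawa W c ∧ 0 < Tam W c ∧
    0 < Omega W ∧ 0 < torsOrder W ∧ anOrder W (L 1) c = z ∧ z ≠ 0 ∧ padicValRat 2 z = 0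

/-- The group `W(ℚ)` is finite and `Ш(W/ℚ)` has no element of order two. -/
def NoSelmer (W : WeierstrassCurve ℤ) : Prop :=
  Finite (base W ℚ).toAffine.Point ∧ ∀ x : Sha (base W ℚ), 2 • x = 0 → x = 0

/-! ### The class of the twists -/

/-- `D` is the discriminant of an imaginary quadratic field -/
def IsDisc (D : ℤ) : Prop := D < 0 ∧ ((D % 4 = 1 ∧ Squarefree D) ∨
  (D % 4 = 0 ∧ Squarefree (D / 4) ∧ ((D / 4) % 4 = 2 ∨ (D / 4) % 4 = 3)))

/-- the discriminants of the imaginary quadratic fields in which 3 splits and 5 is inert -/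
def InClass (D : ℤ) : Prop := IsDisc D ∧ D % 3 = 1 ∧ (D % 5 = 2 ∨ D % 5 = 3)

/-- The class group of the quadratic field `ℚ(√D)` has no element of order four. -/
def NoFour (D : ℤ) : Prop := ∀ (K : Type) [Field K] [NumberField K], Module.finrank ℚ K = 2 →
  (∃ a : K, a ^ 2 = (D : K)) →
  ∀ c : ClassGroup (NumberField.RingOfIntegers K), c ^ 4 = 1 → c ^ 2 = 1

/-- the number of the integers `D`, `|D| ≤ X`, with the property `Q` -/
noncomputable def count (Q : ℤ → Prop) (X : ℕ) : ℕ :=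
  ((Finset.Icc (-(X : ℤ)) X).filter Q).card

/-- The statement for `D`, `W` the curve `E_D`. -/
def Criterion (D : ℤ) (W : WeierstrassCurve ℤ) : Prop :=
  Minimal W ∧
  (∃ (L : ℂ → ℂ) (c : ℕ → ℕ) (w : ℚ) (y : ℤ), IsL W L ∧ IsTamagawa W c ∧
    Tam W c = 4 ^ (D.natAbs.primeFactors.card + 1) ∧
    (∃ t : ℕ, Odd t ∧ torsOrder W = 4 * t) ∧ 0 < Omega W ∧
    w ≠ 0 ∧ padicValRat 2 w = 0 ∧ anOrder W (L 1) c = ((w * y ^ 2 : ℚ) : ℂ) ∧
    (Odd y ↔ NoFour D)) ∧
  (NoSelmer W ↔ NoFour D) ∧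
  (TwoPart W ↔ NoFour D)

section proof

open Pool.Agent.Y700 (EQ)
open Pool.Agent.XW.F (mm all_full)
open Pool.Agent.NH3.XE (FD KrF f_dens f_law_T)
open Pool.Agent.NH3.XD (cZ cZ_congr)

theorem fd_iff {D : ℤ} : InClass D ↔ FD D := by
  unfold InClass IsDisc FD
  tauto

theorem noFour_iff (D : ℤ) : NoFour D ↔ Pool.Agent.XR.NoFour (Pool.Agent.XW.F.sqf D) := by
  have key : ∀ (K : Type) [Field K] [NumberField K],
      (∃ a : K, a ^ 2 = (D : K)) ↔ ∃ a : K, a ^ 2 = ((Pool.Agent.XW.F.sqf D : ℤ) : K) := by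
    intro K _ _
    by_cases h : D % 4 = 0
    · have e : D = 4 * Pool.Agent.XW.F.sqf D := by
        unfold Pool.Agent.XW.F.sqf
        rw [if_pos h]
        omega
      constructor
      · rintro ⟨a, ha⟩
        refine ⟨a / 2, ?_⟩
        rw [div_pow, ha]
        conv_lhs => rw [e]
        push_cast
        ring
      · rintro ⟨a, ha⟩
        refine ⟨2 * a, ?_⟩
        rw [mul_pow, ha]
        conv_rhs => rw [e]
        push_cast
        ring
    · have e : Pool.Agent.XW.F.sqf D = D := if_neg h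
      rw [e]
  unfold NoFour Pool.Agent.XR.NoFour
  constructor
  · intro h K _ _ h1 h2
    exact h K h1 ((key K).2 h2)
  · intro h K _ _ h1 h2
    exact h K h1 ((key K).1 h2)

lemma twist_eq (D : ℤ) : twist D = mm D := rfl

lemma omega_eq (W : WeierstrassCurve ℤ) : Omega W = Pool.Agent.Y700.Omega W := by
  unfold Omega Pool.Agent.Y700.Omega
  rw [← integral_const_mul]
  show ∫ x in {x : ℝ | 0 < Pool.Agent.Y700.psi W x}, 2 * (1 / √(Pool.Agent.Y700.psi W x)) = _
  congr 1
  funext x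
  rw [mul_one_div]

/-- the Tamagawa numbers -/
noncomputable def cT (W : WeierstrassCurve ℤ) (p : ℕ) : ℕ :=
  if h : p.Prime then (haveI := Fact.mk h; Pool.Agent.Y700.tam W p) else 1

lemma isTam (W : WeierstrassCurve ℤ) : IsTamagawa W (cT W) := by
  intro p hp
  have hc : cT W p = Pool.Agent.Y700.tam W p := by
    unfold cT
    rw [dif_pos hp.out]
  refine ⟨⟨Pool.Agent.Y700.E0 W p, fun P => ?_, by rw [hc]; rfl⟩, fun h => ?_⟩
  · rw [Pool.Agent.Y809.BSD14.t_E0 W p P]
    constructor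
    · rintro h ⟨x, y, h1, rfl, h2⟩
      exact h x y h1 rfl h2
    · intro h x y h1 h2 h3
      exact h ⟨x, y, h1, h2, h3⟩
  · rw [hc]
    exact Pool.Agent.Y809.BSD14.t_TGOOD W p h

lemma tam_eq (W : WeierstrassCurve ℤ) : Tam W (cT W) = Pool.Agent.Y700.tamProd W := rfl

lemma isL_iff (W : WeierstrassCurve ℤ) (f : ℂ → ℂ) : IsL W f ↔ Pool.Agent.Y700.IsL W f := Iff.rfl

lemma minimal_iff (W : WeierstrassCurve ℤ) : Minimal W ↔ Pool.Agent.W97.MT.IsGloballyMinimal W :=
  Iff.rfl

lemma two_iff {A : Type} [AddCommGroup A] : (∀ x : A, 2 • x = 0 → x = 0) ↔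
    ∀ x : A, x + x = 0 → x = 0 := by
  refine forall_congr' fun x => ?_
  rw [two_nsmul]

lemma two_pow {A : Type} [AddCommGroup A] (h : ∀ x : A, 2 • x = 0 → x = 0) (n : ℕ) :
    ∀ x : A, 2 ^ n • x = 0 → x = 0 := by
  induction n with
  | zero => intro x hx; rwa [pow_zero, one_nsmul] at hx
  | succ n ih =>
    intro x hx
    refine h x (ih _ ?_)
    rwa [← mul_nsmul', ← pow_succ]

lemma noSelmer_iff {D : ℤ} : NoSelmer (twist D) ↔
    (Finite (EQ (mm D)).toAffine.Point ∧ ∀ x : Sha (EQ (mm D)), x + x = 0 → x = 0) :=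
  and_congr Iff.rfl two_iff

lemma anOrder_eq {D : ℤ} {l : ℂ} {q : ℝ} (hΩ : 0 < Omega (twist D))
    (hT : 0 < Tam (twist D) (cT (twist D))) (ht : 0 < torsOrder (twist D))
    (hl : l = ((q * (Pool.Agent.Y700.Omega (mm D) * Pool.Agent.Y700.tamProd (mm D) /
      (Nat.card (AddCommGroup.torsion (EQ (mm D)).toAffine.Point) : ℝ) ^ 2) : ℝ) : ℂ)) :
    anOrder (twist D) l (cT (twist D)) = (q : ℂ) := by
  have e1 : Pool.Agent.Y700.Omega (mm D) = Omega (twist D) := (omega_eq _).symm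
  have e2 : Pool.Agent.Y700.tamProd (mm D) = Tam (twist D) (cT (twist D)) := rfl
  have e3 : Nat.card (AddCommGroup.torsion (EQ (mm D)).toAffine.Point) = torsOrder (twist D) := by
    rw [twist_eq]
    unfold torsOrder
    rfl
  rw [e1, e2, e3] at hl
  have h1 : (Omega (twist D) : ℂ) ≠ 0 := by exact_mod_cast hΩ.ne'
  have h2 : ((Tam (twist D) (cT (twist D)) : ℕ) : ℂ) ≠ 0 := by exact_mod_cast hT.ne'
  have h3 : ((torsOrder (twist D) : ℕ) : ℂ) ≠ 0 := by exact_mod_cast ht.ne'
  unfold anOrder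
  rw [hl]
  push_cast
  field_simp

theorem criterion {D : ℤ} (h : InClass D) : Criterion D (twist D) ∧
    (TwoPart (twist D) ↔ KrF D) := by
  have hD : FD D := fd_iff.1 h
  obtain ⟨⟨hmin, ⟨f, hf⟩, y, hy1, hy2, hv⟩, hΩ', htam, k, hk, htor⟩ := all_full hD
  obtain ⟨hv1, w, hw0, hw, hval⟩ := hv f hf
  have hkr : KrF D ↔ NoFour D := (Pool.Agent.XW.F.all_out hD).2.1.trans (noFour_iff D).symm
  have hΩ : 0 < Omega (twist D) := by rw [omega_eq]; exact hΩ'
  have htam' : Tam (twist D) (cT (twist D)) = 4 ^ (D.natAbs.primeFactors.card + 1) := htam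
  have htor' : torsOrder (twist D) = 4 * k := by
    rw [twist_eq]
    unfold torsOrder
    exact htor
  have hT : 0 < Tam (twist D) (cT (twist D)) := by
    rw [htam']
    exact pow_pos (by norm_num) _
  have hto : 0 < torsOrder (twist D) := by
    rw [htor']
    exact Nat.mul_pos (by norm_num) hk.pos
  have han : anOrder (twist D) (f 1) (cT (twist D)) = ((w * (y : ℚ) ^ 2 : ℚ) : ℂ) := by
    have := anOrder_eq (q := (w : ℝ) * (y : ℝ) ^ 2) hΩ hT hto hval
    rw [this]
    push_cast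
    rfl
  have hns : NoSelmer (twist D) ↔ KrF D := by
    rw [noSelmer_iff]
    exact hy1.symm.trans hy2
  have htp : TwoPart (twist D) ↔ KrF D := by
    refine ⟨fun hp => hns.1 ⟨hp.2.1, fun x hx => hp.2.2.1 1 x ?_⟩, fun hd => ?_⟩
    · rwa [pow_one]
    · have h5 := hns.2 hd
      have hyo : Odd y := hy2.2 hd
      have hy0 : y ≠ 0 := by
        rintro rfl
        exact absurd hyo (by decide)
      have hyq : (y : ℚ) ≠ 0 := by exact_mod_cast hy0
      refine ⟨hmin, h5.1, fun n => two_pow h5.2 n, f, cT (twist D), w * (y : ℚ) ^ 2, hf, hv1 hy0,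
        isTam _, hT, hΩ, hto, han, mul_ne_zero hw0 (pow_ne_zero 2 hyq), ?_⟩
      have hy2 : padicValRat 2 ((y : ℚ)) = 0 := by
        rw [padicValRat.of_int]
        have : padicValInt 2 y = 0 := by
          refine padicValInt.eq_zero_of_not_dvd ?_
          intro hd
          have h5 := Int.odd_iff.1 hyo
          omega
        rw [this]
        rfl
      have : Fact (Nat.Prime 2) := ⟨Nat.prime_two⟩
      rw [padicValRat.mul hw0 (pow_ne_zero 2 hyq), hw, padicValRat.pow, hy2]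
      simp
  exact ⟨⟨hmin, ⟨f, cT (twist D), w, y, hf, isTam _, htam', ⟨k, hk, htor'⟩, hΩ, hw0, hw, han,
    hy2.trans hkr⟩, hns.trans hkr, htp.trans hkr⟩, htp⟩

end proof

open Pool.Agent.NH3.XE Pool.Agent.NH3.XD Pool.Agent.NH5.PR in
/-- **Main theorem.** -/
theorem result :
    (∀ D : ℤ, InClass D → Criterion D (twist D)) ∧
    (0.2887 < ∏' i : ℕ, (1 - (1 / 2 : ℝ) ^ (i + 1)) ∧ ∏' i : ℕ, (1 - (1 / 2 : ℝ) ^ (i + 1)) < 0.2888) ∧
    (Tendsto (fun X : ℕ => (count (fun D => InClass D ∧ TwoPart (twist D)) X : ℝ) / X) atTop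
      (𝓝 ((∏' i : ℕ, (1 - (1 / 2 : ℝ) ^ (i + 1))) * (15 / (32 * Real.pi ^ 2))))) ∧
    ∀ (m : ℕ) (T : Finset ℤ), 0 < m →
      (∃ D : ℤ, InClass D ∧ Int.gcd D m = 1 ∧ D % m ∈ T) →
      Tendsto (fun X : ℕ =>
        (count (fun D => (InClass D ∧ Int.gcd D m = 1 ∧ D % m ∈ T) ∧ TwoPart (twist D)) X : ℝ) /
        (count (fun D => InClass D ∧ Int.gcd D m = 1 ∧ D % m ∈ T) X : ℝ)) atTop
        (𝓝 (∏' i : ℕ, (1 - (1 / 2 : ℝ) ^ (i + 1)))) ∧
      ∃ (c : ℝ) (X₀ : ℕ), 0 < c ∧ ∀ X : ℕ, X₀ ≤ X → c * X ≤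
        (count (fun D => (InClass D ∧ Int.gcd D m = 1 ∧ D % m ∈ T) ∧ TwoPart (twist D)) X : ℝ) := by
  refine ⟨fun D hD => (criterion hD).1, ⟨t_ETA.2.2.2.1, t_ETA.2.2.2.2⟩, ?_, fun m T hm ha => ?_⟩
  · refine f_dens.congr fun X => ?_
    have e : cZ (fun D => FD D ∧ KrF D) X = count (fun D => InClass D ∧ TwoPart (twist D)) X := by
      show _ = cZ (fun D => InClass D ∧ TwoPart (twist D)) X
      refine cZ_congr (fun D => ?_) X
      rw [← fd_iff]
      exact and_congr_right fun g => (criterion (D := D) g).2.symm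
    rw [e]
  obtain ⟨D₀, b1, b2, b3⟩ := ha
  obtain ⟨h1, c, X₀, hc, h2⟩ := f_law_T hm T ⟨D₀, fd_iff.1 b1, b2, b3⟩
  have e : ∀ X : ℕ, cZ (fun D => (FD D ∧ Int.gcd D m = 1 ∧ D % m ∈ T) ∧ KrF D) X =
      count (fun D => (InClass D ∧ Int.gcd D m = 1 ∧ D % m ∈ T) ∧ TwoPart (twist D)) X := by
    intro X
    show _ = cZ (fun D => (InClass D ∧ Int.gcd D m = 1 ∧ D % m ∈ T) ∧ TwoPart (twist D)) X
    refine cZ_congr (fun D => ?_) X
    rw [← fd_iff]
    exact and_congr_right fun g => (criterion (D := D) g.1).2.symm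
  have e' : ∀ X : ℕ, cZ (fun D => FD D ∧ Int.gcd D m = 1 ∧ D % m ∈ T) X =
      count (fun D => InClass D ∧ Int.gcd D m = 1 ∧ D % m ∈ T) X := by
    intro X
    show _ = cZ (fun D => InClass D ∧ Int.gcd D m = 1 ∧ D % m ∈ T) X
    refine cZ_congr (fun D => ?_) X
    rw [← fd_iff]
  refine ⟨?_, c, X₀, hc, fun X hX => ?_⟩
  · refine h1.congr fun X => ?_
    rw [← e X, ← e' X]
  · rw [← e X]
    exact h2 X hX

end Pool.Agent.Results.MP_4a9ea6_nt.AllImaginaryTwoPartX15
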