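import Pool.Agent.NH5.LK.Full2
import Pool.Agent.Z702.Fin
import Pool.Agent.Y614.XF.Perd
import Pool.Agent.Y809.BSD14.Tam3
import Pool.Agent.Y248.BSD14.Omega

/-!
# The 2-part of the strong Birch and Swinnerton-Dyer conjecture for the quadratic twists of `X_0(14)`:
# all types of primes

`E_D` is the quadratic twist by `D` of the modular curve `X_0(14) : y² + x y + y = x³ + 4 x - 6`, which has
no complex multiplication; `D ≠ 1` is any squarefree integer, positive or negative, `D ≡ 1 mod 4` and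
prime to `7`. The prime factors `p` of `D` are of four types: `p` is split or inert in `ℚ(√2)`, and split or
inert in `ℚ(√-7)`. Let `nA` be the number of those which are split in `ℚ(√2)` and inert in `ℚ(√-7)`,
and let `nB` be the number of those which are inert in `ℚ(√2)` and split in `ℚ(√-7)`. We assume that
`nB ≤ nA` and that `nA + nB` is even (that is, the root number of `E_D` is `+1`); there is no other
restriction on the prime factors of `D` or on their number.

Let `z = L(E_D, 1) #E_D(ℚ)_tors² / (Ω ∏ c_p)`, which according to the conjecture is zero or the order of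
`Ш(E_D/ℚ)`.  With no hypothesis on the rank or on `Ш` we prove for all these `D`:
* the equation of `E_D` is a global minimal one, `L(E_D, s)` is entire, `ord₂ ∏ c_p` is `1 + s + 2 t`, where
  `s` and `t` are the numbers of the prime factors of `D` which are inert and split in `ℚ(√-7)`, and the
  order of the torsion is twice an odd number;
* `z` is the product of a rational number which is a unit at `2` and of the square of an integer `y`, and
  `2^{(nA - nB) / 2}` divides `y`, so that `2^{nA - nB}` divides the predicted order of `Ш`;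
* `y` is odd if and only if `E_D(ℚ)` is finite and `Ш(E_D/ℚ)[2] = 0` (the 2-part of the formula modulo
  two, in both directions), if and only if the matrix `M D` over `𝔽₂` of the quadratic residue symbols is
  square (`nA = nB`) and nonsingular;
* in this case `Ш(E_D/ℚ)[2^∞] = 0`, so that the 2-part of the formula holds.

The new point is the value modulo two if there are primes which are split in exactly one of the two
fields: see `CompleteTwoConverse` in `MP_696deb_nt` for the idea of the proof.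
-/

set_option autoImplicit false
set_option linter.style.haveILetI false

open WeierstrassCurve MeasureTheory

namespace Pool.Agent.Results.MP_4a9ea6_nt.CompleteTwoPartX14

open scoped Classical

open Pool.Agent.TH841.SH.D (Sha)

/-- The quadratic twist `E_D` of `X_0(14)` by `D ≡ 1` modulo `4`:
`y² + x y + y = x³ + ((D - 1)/4) x² + ((9 D² - 1)/2) x - (23 D³ + 1)/4`.  For `D = 1` this is
`y² + x y + y = x³ + 4 x - 6`. -/
def twist (D : ℤ) : WeierstrassCurve ℤ :=
  ⟨1, (D - 1) / 4, 1, (9 * D ^ 2 - 1) / 2, -((23 * D ^ 3 + 1) / 4)⟩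

/-- The curve given by the equation of `W` over the ring `R`. -/
abbrev base (W : WeierstrassCurve ℤ) (R : Type) [CommRing R] : WeierstrassCurve R :=
  W.map (Int.castRingHom R)

/-- `W` is a global minimal equation: `Δ ≠ 0` and `|Δ|` is minimal among the integral equations of the
same curve over `ℚ`. -/
def Minimal (W : WeierstrassCurve ℤ) : Prop :=
  W.Δ ≠ 0 ∧ ∀ (W' : WeierstrassCurve ℤ) (C : VariableChange ℚ), C • base W ℚ = base W' ℚ →
    |W.Δ| ≤ |W'.Δ|

/-- The number of the affine points modulo `p`. -/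
noncomputable def pts (W : WeierstrassCurve ℤ) (p : ℕ) : ℕ :=
  Nat.card {P : ZMod p × ZMod p // (base W (ZMod p)).toAffine.Equation P.1 P.2}

/-- `a_p = p + 1 - #W(𝔽_p)`, the points counted with the point at infinity. -/
noncomputable def a (W : WeierstrassCurve ℤ) (p : ℕ) : ℤ := p - pts W p

/-- `L` is the L-function of the minimal equation `W`: it is entire, and for `Re s > 3/2` it is given by
the Euler product with the factors `(1 - a_p p^(-s) + p^(1 - 2 s))⁻¹` if `p` does not divide `Δ` and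
`(1 - a_p p^(-s))⁻¹` otherwise. -/
def IsL (W : WeierstrassCurve ℤ) (L : ℂ → ℂ) : Prop :=
  Differentiable ℂ L ∧ ∀ s : ℂ, 3 / 2 < s.re →
    HasProd (fun p : Nat.Primes => (1 - (a W p : ℂ) * ((p : ℕ) : ℂ) ^ (-s) +
      (if ((p : ℕ) : ℤ) ∣ W.Δ then 0 else ((p : ℕ) : ℂ) ^ (1 - 2 * s)))⁻¹) (L s)

/-- The point `P` of `W` over `ℚ_p` reduces to a singular point of the curve modulo `p`: the coordinates
are integral and both partial derivatives of `y² + a₁ x y + a₃ y - x³ - a₂ x² - a₄ x - a₆` are in the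
maximal ideal. -/
def SingularReduction (W : WeierstrassCurve ℤ) (p : ℕ) [Fact p.Prime]
    (P : (base W ℚ_[p]).toAffine.Point) : Prop :=
  ∃ x y h, P = Affine.Point.some x y h ∧ ‖x‖ ≤ 1 ∧ ‖y‖ ≤ 1 ∧
    ‖W.a₁ * y - (3 * x ^ 2 + 2 * W.a₂ * x + W.a₄)‖ < 1 ∧ ‖2 * y + W.a₁ * x + W.a₃‖ < 1

/-- `c p` is the Tamagawa number `[W(ℚ_p) : W⁰(ℚ_p)]` for all primes `p`, where `W⁰(ℚ_p)` is the subgroup
of the points which do not have singular reduction; it is `1` if `p` does not divide `Δ`. -/
def IsTamagawa (W : WeierstrassCurve ℤ) (c : ℕ → ℕ) : Prop :=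
  ∀ (p : ℕ) [Fact p.Prime], (∃ H : AddSubgroup (base W ℚ_[p]).toAffine.Point,
    (∀ P, P ∈ H ↔ ¬ SingularReduction W p P) ∧ H.index = c p) ∧ (¬ (p : ℤ) ∣ W.Δ → c p = 1)

/-- The product of the Tamagawa numbers. -/
noncomputable def Tam (W : WeierstrassCurve ℤ) (c : ℕ → ℕ) : ℕ := ∏ p ∈ W.Δ.natAbs.primeFactors, c p

/-- `4 x³ + b₂ x² + 2 b₄ x + b₆ = (2 y + a₁ x + a₃)²`. -/
def cubic (W : WeierstrassCurve ℤ) (x : ℝ) : ℝ := 4 * x ^ 3 + W.b₂ * x ^ 2 + 2 * W.b₄ * x + W.b₆

/-- `Ω = ∫_{W(ℝ)} |ω|` with `ω = dx / (2 y + a₁ x + a₃)`, as an integral over `x`: two real points lie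
over each `x` with `cubic x > 0`. -/
noncomputable def Omega (W : WeierstrassCurve ℤ) : ℝ :=
  2 * ∫ x in {x : ℝ | 0 < cubic W x}, 1 / √(cubic W x)

/-- The order of the torsion subgroup of `W(ℚ)`. -/
noncomputable def torsOrder (W : WeierstrassCurve ℤ) : ℕ :=
  Nat.card (AddCommGroup.torsion (base W ℚ).toAffine.Point)

/-- The order of the Tate-Shafarevich group predicted by the formula in rank zero, for the value `l` of
the L-function at `s = 1` and the Tamagawa numbers `c`: `l #W(ℚ)_tors² / (Ω ∏ c_p)`. -/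
noncomputable def anOrder (W : WeierstrassCurve ℤ) (l : ℂ) (c : ℕ → ℕ) : ℂ :=
  l * (torsOrder W : ℂ) ^ 2 / ((Omega W : ℝ) * (Tam W c : ℂ))

/-- The 2-part of the strong conjecture of Birch and Swinnerton-Dyer for `W` over `ℚ`, in the case that
the predicted order of `Ш` is a unit at two: `W` is minimal, `L(W, s)` is entire, `L(W, 1) ≠ 0`, `W(ℚ)`
is finite, the 2-primary part of `Ш(W/ℚ)` is zero, and the predicted order of `Ш` is a rational number
which is a unit at two. -/
def TwoPart (W : WeierstrassCurve ℤ) : Prop :=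
  Minimal W ∧ Finite (base W ℚ).toAffine.Point ∧
  (∀ (n : ℕ) (x : Sha (base W ℚ)), 2 ^ n • x = 0 → x = 0) ∧
  ∃ (L : ℂ → ℂ) (c : ℕ → ℕ) (z : ℚ), IsL W L ∧ L 1 ≠ 0 ∧ IsTamagawa W c ∧ 0 < Tam W c ∧
    0 < Omega W ∧ 0 < torsOrder W ∧ anOrder W (L 1) c = z ∧ z ≠ 0 ∧ padicValRat 2 z = 0

/-- The group `W(ℚ)` is finite and `Ш(W/ℚ)` has no element of order two. -/
def NoSelmer (W : WeierstrassCurve ℤ) : Prop :=
  Finite (base W ℚ).toAffine.Point ∧ ∀ x : Sha (base W ℚ), 2 • x = 0 → x = 0

/-! ### The class of the twists -/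

/-- the odd prime `p ≠ 7` is split in `ℚ(√2)`: `p ≡ ± 1 mod 8` -/
def Sq2 (p : ℕ) : Prop := p % 8 = 1 ∨ p % 8 = 7

/-- the odd prime `p ≠ 7` is split in `ℚ(√-7)`: `p` is a square modulo `7` -/
def Sq7 (p : ℕ) : Prop := p % 7 = 1 ∨ p % 7 = 2 ∨ p % 7 = 4

/-- the number of the prime factors of `D` which are split in `ℚ(√2)` and inert in `ℚ(√-7)` -/
noncomputable def nA (D : ℤ) : ℕ := (D.natAbs.primeFactors.filter fun p => Sq2 p ∧ ¬ Sq7 p).card

/-- the number of the prime factors of `D` which are inert in `ℚ(√2)` and split in `ℚ(√-7)` -/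
noncomputable def nB (D : ℤ) : ℕ := (D.natAbs.primeFactors.filter fun p => ¬ Sq2 p ∧ Sq7 p).card

/-- the rows of the matrix: the prime factors of `D` which are split in `ℚ(√-7)` -/
noncomputable def rows (D : ℤ) : Finset ℕ := D.natAbs.primeFactors.filter fun p => Sq7 p

/-- the columns of the matrix: the prime factors of `D` which are split in `ℚ(√2)` -/
noncomputable def cols (D : ℤ) : Finset ℕ := D.natAbs.primeFactors.filter fun p => Sq2 p

/-- `1` if `p` is not a square modulo `q`, and `0` otherwise -/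
noncomputable def sym (p q : ℕ) : ZMod 2 := if IsSquare (p : ZMod q) then 0 else 1

/-- The matrix `M D` over `𝔽₂`: the entry at `(p, q)`, `p ≠ q`, is `1` if `p` is not a square modulo
`q`; the entry at `(p, p)` is the number of the prime factors `t ≠ p` of `D` modulo which `p` is not a
square, plus `1` if `p` is of the form `2 x² + 7 y²`. -/
noncomputable def M (D : ℤ) : Matrix (rows D) (cols D) (ZMod 2) := Matrix.of fun p q =>
  if (p : ℕ) = q then
    (if ∃ x y : ℕ, (p : ℕ) = 2 * x ^ 2 + 7 * y ^ 2 then 1 else 0) +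
      ∑ t ∈ D.natAbs.primeFactors.erase p, sym p t
  else sym p q

/-- The matrix is square and nonsingular. -/
def Nonsingular (D : ℤ) : Prop :=
  (rows D).card = (cols D).card ∧ Function.Bijective (M D).mulVec

/-- The class of the discriminants, positive and negative. -/
def Adm (D : ℤ) : Prop := D ≠ 1 ∧ Squarefree D ∧ D % 4 = 1 ∧ ¬ (7 : ℤ) ∣ D ∧ nB D ≤ nA D ∧
  (nA D + nB D) % 2 = 0

/-- The statement for `D`, `W` the curve `E_D`. -/
def Criterion (D : ℤ) (W : WeierstrassCurve ℤ) : Prop :=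
  Minimal W ∧
  (∃ (L : ℂ → ℂ) (c : ℕ → ℕ) (w : ℚ) (y : ℤ), IsL W L ∧ IsTamagawa W c ∧
    (∃ t : ℕ, Odd t ∧ Tam W c = 2 ^ (1 + (D.natAbs.primeFactors.card - (rows D).card) +
      2 * (rows D).card) * t) ∧
    (∃ t : ℕ, Odd t ∧ torsOrder W = 2 * t) ∧ 0 < Omega W ∧
    w ≠ 0 ∧ padicValRat 2 w = 0 ∧ anOrder W (L 1) c = ((w * y ^ 2 : ℚ) : ℂ) ∧
    (2 : ℤ) ^ ((nA D - nB D) / 2) ∣ y ∧ (Odd y ↔ Nonsingular D)) ∧
  (NoSelmer W ↔ Nonsingular D) ∧
  (TwoPart W ↔ Nonsingular D)

section proof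

open Pool.Agent.Y700 (WM EQ)
open Pool.Agent.NH5.LK Pool.Agent.NH5.GD
open Pool.Agent.NH1 (lg gX sS sI sA sB sq2 sq7)

lemma twist_eq (D : ℤ) : twist D = WM D := rfl

lemma cubic_eq (W : WeierstrassCurve ℤ) (x : ℝ) : cubic W x = Pool.Agent.Y700.psi W x := rfl

lemma omega_eq (W : WeierstrassCurve ℤ) : Omega W = Pool.Agent.Y700.Omega W := by
  unfold Omega Pool.Agent.Y700.Omega
  rw [← integral_const_mul]
  show ∫ x in {x : ℝ | 0 < Pool.Agent.Y700.psi W x}, 2 * (1 / √(Pool.Agent.Y700.psi W x)) = _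
  congr 1
  funext x
  rw [mul_one_div]

lemma omega_pos {D : ℤ} (h : D % 4 = 1) : 0 < Omega (twist D) := by
  obtain ⟨s, L, Op, Om, hOp, hOm, g2, g3, hLt, -, -⟩ := Pool.Agent.Y700.exists_symb2'
  have h1 := Pool.Agent.Y614.XF.perd L Op Om hOp hOm g2 g3 hLt D h
  have h2 : Omega (twist D) = Pool.Agent.Y682.XF.realPeriod (WM D) := rfl
  have hD : (D : ℝ) ≠ 0 := by
    have : D ≠ 0 := by omega
    exact_mod_cast this
  rw [h2, h1]
  refine div_pos (mul_pos two_pos ?_) (Real.sqrt_pos.2 (abs_pos.2 hD))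
  split_ifs
  · exact hOp
  · exact hOm

/-- the Tamagawa numbers -/
noncomputable def cT (W : WeierstrassCurve ℤ) (p : ℕ) : ℕ :=
  if h : p.Prime then (haveI := Fact.mk h; Pool.Agent.Y700.tam W p) else 1

lemma isTam (W : WeierstrassCurve ℤ) : IsTamagawa W (cT W) := by
  intro p hp
  have hc : cT W p = Pool.Agent.Y700.tam W p := by
    unfold cT
    rw [dif_pos hp.out]
  refine ⟨⟨Pool.Agent.Y700.E0 W p, fun P => ?_, by rw [hc]; rfl⟩, fun h => ?_⟩
  · rw [Pool.Agent.Y809.BSD14.t_E0 W p P]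
    constructor
    · rintro h ⟨x, y, h1, rfl, h2⟩
      exact h x y h1 rfl h2
    · intro h x y h1 h2 h3
      exact h ⟨x, y, h1, h2, h3⟩
  · rw [hc]
    exact Pool.Agent.Y809.BSD14.t_TGOOD W p h

lemma tam_eq (W : WeierstrassCurve ℤ) : Tam W (cT W) = Pool.Agent.Y700.tamProd W := rfl

lemma isL_iff (W : WeierstrassCurve ℤ) (f : ℂ → ℂ) : IsL W f ↔ Pool.Agent.Y700.IsL W f := Iff.rfl

lemma minimal_iff (W : WeierstrassCurve ℤ) : Minimal W ↔ Pool.Agent.W97.MT.IsGloballyMinimal W :=
  Iff.rfl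

lemma two_iff {A : Type} [AddCommGroup A] : (∀ x : A, 2 • x = 0 → x = 0) ↔
    ∀ x : A, x + x = 0 → x = 0 := by
  refine forall_congr' fun x => ?_
  rw [two_nsmul]

lemma noSelmer_iff {D : ℤ} : NoSelmer (twist D) ↔
    (Finite (EQ (WM D)).toAffine.Point ∧ ∀ x : Sha (EQ (WM D)), x + x = 0 → x = 0) :=
  and_congr Iff.rfl two_iff

lemma anOrder_eq {D : ℤ} {l : ℂ} {q : ℝ} (hΩ : 0 < Omega (twist D))
    (hT : 0 < Tam (twist D) (cT (twist D))) (ht : 0 < torsOrder (twist D))
    (hl : l = ((q * (Pool.Agent.Y700.Omega (WM D) * Pool.Agent.Y700.tamProd (WM D) /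
      (Nat.card (AddCommGroup.torsion (EQ (WM D)).toAffine.Point) : ℝ) ^ 2) : ℝ) : ℂ)) :
    anOrder (twist D) l (cT (twist D)) = (q : ℂ) := by
  have e1 : Pool.Agent.Y700.Omega (WM D) = Omega (twist D) := (omega_eq _).symm
  have e2 : Pool.Agent.Y700.tamProd (WM D) = Tam (twist D) (cT (twist D)) := rfl
  have e3 : Nat.card (AddCommGroup.torsion (EQ (WM D)).toAffine.Point) = torsOrder (twist D) := by
    rw [twist_eq]
    unfold torsOrder
    rfl
  rw [e1, e2, e3] at hl
  have h1 : (Omega (twist D) : ℂ) ≠ 0 := by exact_mod_cast hΩ.ne'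
  have h2 : ((Tam (twist D) (cT (twist D)) : ℕ) : ℂ) ≠ 0 := by exact_mod_cast hT.ne'
  have h3 : ((torsOrder (twist D) : ℕ) : ℂ) ≠ 0 := by exact_mod_cast ht.ne'
  unfold anOrder
  rw [hl]
  push_cast
  field_simp

theorem rows_eq (D : ℤ) : rows D = sS D.natAbs.primeFactors ∪ sB D.natAbs.primeFactors := by
  ext p
  rw [mem_row]
  exact Finset.mem_filter

theorem cols_eq (D : ℤ) : cols D = sS D.natAbs.primeFactors ∪ sA D.natAbs.primeFactors := by
  ext p
  rw [mem_col]
  exact Finset.mem_filter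

theorem nA_eq (D : ℤ) : nA D = (sA D.natAbs.primeFactors).card := by
  unfold nA sA
  congr 1
  ext p
  rw [Finset.mem_filter, Finset.mem_filter]
  exact Iff.rfl

theorem nB_eq (D : ℤ) : nB D = (sB D.natAbs.primeFactors).card := by
  unfold nB sB
  congr 1
  ext p
  rw [Finset.mem_filter, Finset.mem_filter]
  exact Iff.rfl

theorem sym_eq {N : Finset ℕ} (hN : Pool.Agent.NH1.Pm N) {p q : ℕ} (hp : p ∈ N) (hq : q ∈ N)
    (hpq : p ≠ q) : sym p q = lg p q := by
  rw [lg_nr hN hp hq hpq]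
  rfl

theorem entry_eq {D : ℤ} (hA : Pool.Agent.NH5.GD.Adm D) (p : rows D) (q : cols D) :
    M D p q = Pool.Agent.NH1.Lp lg gX D.natAbs.primeFactors p q := by
  classical
  have hN := pf_pm hA
  have hp := (Finset.mem_filter.1 p.2).1
  have hq := (Finset.mem_filter.1 q.2).1
  show (if (p : ℕ) = q then _ else _) = _
  unfold Pool.Agent.NH1.Lp
  split_ifs with h
  · unfold gX Pool.Agent.Z700.X2
    rw [if_pos (by assumption)]
    congr 1
    exact Finset.sum_congr rfl fun t ht =>
      sym_eq hN hp (Finset.mem_of_mem_erase ht) (Finset.mem_erase.1 ht).1.symm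
  · unfold gX Pool.Agent.Z700.X2
    rw [if_neg (by assumption)]
    congr 1
    exact Finset.sum_congr rfl fun t ht =>
      sym_eq hN hp (Finset.mem_of_mem_erase ht) (Finset.mem_erase.1 ht).1.symm
  · exact sym_eq hN hp hq h

theorem nonsing_iff {D : ℤ} (hA : Pool.Agent.NH5.GD.Adm D) : Nonsingular D ↔ Good D := by
  classical
  rw [good_perm hA]
  unfold Nonsingular
  rw [inj_bij, Fintype.card_coe, Fintype.card_coe]
  have e : M D = Matrix.of fun (p : rows D) (q : cols D) =>
      Pool.Agent.NH1.Lp lg gX D.natAbs.primeFactors p q := by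
    ext p q
    exact entry_eq hA p q
  rw [e, ← rows_eq, ← cols_eq]
  tauto

theorem card_rest (D : ℤ) :
    (sA D.natAbs.primeFactors ∪ sI D.natAbs.primeFactors).card =
      D.natAbs.primeFactors.card - (rows D).card := by
  have h1 := Finset.card_union_of_disjoint (disj_SB_AI D.natAbs.primeFactors)
  rw [union_SB_AI] at h1
  rw [rows_eq]
  omega

theorem criterion {D : ℤ} (hD : Adm D) : Criterion D (twist D) := by
  obtain ⟨h1, hs, h4, h7, hc, he⟩ := hD
  have hA : Pool.Agent.NH5.GD.Adm D := ⟨hs, h4, h7⟩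
  rw [nA_eq, nB_eq] at hc he
  obtain ⟨hmin, ⟨f, hf⟩, y, hdvd, hy1, hy2, hv⟩ := full_ev2 hA h1 hc he
  obtain ⟨t, ht, htam⟩ := tam_ev hA
  obtain ⟨k, hk, htor⟩ := tor_ev hA
  obtain ⟨hv1, w, hw0, hw, hval⟩ := hv f hf
  have hΩ := omega_pos h4
  have htam' : Tam (twist D) (cT (twist D)) = 2 ^ (1 + (D.natAbs.primeFactors.card -
      (rows D).card) + 2 * (rows D).card) * t := by
    rw [tam_eq, twist_eq, htam, card_rest, ← rows_eq]
    congr 2
    ring
  have htor' : torsOrder (twist D) = 2 * k := by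
    rw [twist_eq]
    unfold torsOrder
    exact htor
  have hT : 0 < Tam (twist D) (cT (twist D)) := by
    rw [htam']
    exact Nat.mul_pos (pow_pos two_pos _) ht.pos
  have hto : 0 < torsOrder (twist D) := by
    rw [htor']
    exact Nat.mul_pos two_pos hk.pos
  have han : anOrder (twist D) (f 1) (cT (twist D)) = ((w * (y : ℚ) ^ 2 : ℚ) : ℂ) := by
    have := anOrder_eq (q := (w : ℝ) * (y : ℝ) ^ 2) hΩ hT hto hval
    rw [this]
    push_cast
    rfl
  have hg := nonsing_iff hA
  have hns' : NoSelmer (twist D) ↔ Nonsingular D := by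
    rw [noSelmer_iff, hg]
    exact hy1.symm.trans hy2
  refine ⟨hmin, ⟨f, cT (twist D), w, y, hf, isTam _, ⟨t, ht, htam'⟩, ⟨k, hk, htor'⟩, hΩ, hw0, hw,
    han, by rw [nA_eq, nB_eq]; exact hdvd, hy2.trans hg.symm⟩, hns', fun hp => ?_, fun hd => ?_⟩
  · refine hns'.1 ⟨hp.2.1, fun x hx => hp.2.2.1 1 x ?_⟩
    rwa [pow_one]
  · have h5 := hns'.2 hd
    have hyo : Odd y := hy2.2 (hg.1 hd)
    have hy0 : y ≠ 0 := by
      rintro rfl
      exact absurd hyo (by decide)
    have hyq : (y : ℚ) ≠ 0 := by exact_mod_cast hy0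
    refine ⟨hmin, h5.1, (alg_good hA (hg.1 hd)).1, f, cT (twist D), w * (y : ℚ) ^ 2, hf, hv1 hy0,
      isTam _, hT, hΩ, hto, han, mul_ne_zero hw0 (pow_ne_zero 2 hyq), ?_⟩
    have hy2 : padicValRat 2 ((y : ℚ)) = 0 := by
      rw [padicValRat.of_int]
      have : padicValInt 2 y = 0 := by
        refine padicValInt.eq_zero_of_not_dvd ?_
        intro hd
        have h5 := Int.odd_iff.1 hyo
        omega
      rw [this]
      rfl
    have : Fact (Nat.Prime 2) := ⟨Nat.prime_two⟩
    rw [padicValRat.mul hw0 (pow_ne_zero 2 hyq), hw, padicValRat.pow, hy2]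
    simp

end proof

/-- **Main theorem.** Let `D ≠ 1` be squarefree, `D ≡ 1 mod 4`, prime to `7`, `nB D ≤ nA D` and `nA D + nB D`
even. Then the statement `Criterion` holds for the twist of `X_0(14)` by `D`. -/
theorem result (D : ℤ) (hD : Adm D) : Criterion D (twist D) := criterion hD

end Pool.Agent.Results.MP_4a9ea6_nt.CompleteTwoPartX14
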