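import Pool.Agent.NH20.XM.Law
import Pool.Agent.NH4.XI.App
import Pool.Agent.X24.F.Full
import Pool.Agent.XW.T.Stm2
import Pool.Agent.Y809.BSD14.Tam3

/-!
# The 2-part of the strong Birch and Swinnerton-Dyer conjecture for several twists of `X_0(15)` and of
# `X_0(24)` at the same time: the joint law

`C_D` and `E_D` are the quadratic twists by `D` of the modular curves
`X_0(15) : y² + x y + y = x³ + x² - 10 x - 10` and `X_0(24) : y² = x (x - 1) (x + 3)`. These two curves have no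
complex multiplication and are not isogenous (over any field). Let `M` run through all negative squarefree
integers with `M ≡ 13` or `37 mod 120`. A shift is a squarefree number `g > 0`, `g ≡ 1 mod 3`, such that `g ≡ 1 mod 4`
and `g ≡ 1, 4 mod 5` or such that `g ≡ 1 mod 8` (or both). Let `D` be the squarefree part of `M g`, so that the twist by
`M g` is the twist by `D`. In the first case we consider `C_D`, in the second case `E_D` (in both cases both).

For a considered twist `W` let `z = L(W, 1) #W(ℚ)_tors² / (Ω ∏ c_p)`, which according to the conjecture is zero or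
the order of `Ш(W/ℚ)`. With no hypothesis on the rank or on `Ш` we prove:
* the equation is a global minimal one, `L(W, s)` is entire, `∏ c_p = 4^{k + 1}` (`k` the number of the primes of
  `D`), and the order of the torsion is four times an odd number;
* `z` is the product of a rational number which is a unit at `2` and of the square of an integer `y`;
* `y` is odd if and only if `W(ℚ)` is finite and `Ш(W/ℚ)[2] = 0` (the 2-part of the formula modulo two, in both
  directions), if and only if the class group of `ℚ(√D)` has no element of order four;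
* in this case `Ш(W/ℚ)[2^∞] = 0` and the 2-part of the formula holds (`TwoPart`).

Joint law: let `g_0, …, g_k` be any different shifts and let `S` be any set of indices. For the proportion
`η ^ |S| (1 - η) ^ (k + 1 - |S|)` of the `M`, `η = ∏ (1 - 2^(-i)) = 0.2887…`, the property `TwoPart` holds for all the
considered twists by `M g_t` with `t ∈ S` and for none of the considered twists by `M g_t` with `t ∉ S`; the number of
these `M` with `|M| ≤ X` is asymptotic to `(5 / (32 π²)) η ^ |S| (1 - η) ^ (k + 1 - |S|) X`. The proportion is the same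
in any set of residue classes modulo any `m`. In particular, for every `k` the 2-part of the formula holds for
`2 k` pairwise not isogenous curves at the same time for a positive proportion of all `M`.
-/

set_option autoImplicit false
set_option linter.style.haveILetI false

open WeierstrassCurve MeasureTheory Filter Topology

namespace Pool.Agent.Results.MP_4a9ea6_nt.JointTwoPartX15X24

open scoped Classical

open Pool.Agent.TH841.SH.D (Sha)

/-- The quadratic twist `C_D` of `X_0(15)` by `D = 1 mod 4`: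
`y² + x y + y = x³ + ((5 D - 1)/4) x² - ((19 D² + 1)/2) x - (39 D³ + 1)/4`.
For `D = 1` this is `y² + x y + y = x³ + x² - 10 x - 10`. -/
def twist15 (D : ℤ) : WeierstrassCurve ℤ :=
  ⟨1, (5 * D - 1) / 4, 1, -((19 * D ^ 2 + 1) / 2), -((39 * D ^ 3 + 1) / 4)⟩

/-- The quadratic twist `E_D : y² = x³ + 2 D x² - 3 D² x = x (x - D) (x + 3 D)` of `X_0(24)` by `D`. -/
def twist24 (D : ℤ) : WeierstrassCurve ℤ := ⟨0, 2 * D, 0, -3 * D ^ 2, 0⟩

/-- The curve given by the equation of `W` over the ring `R`. -/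
abbrev base (W : WeierstrassCurve ℤ) (R : Type) [CommRing R] : WeierstrassCurve R :=
  W.map (Int.castRingHom R)

/-- `W` is a global minimal equation: `Δ ≠ 0` and `|Δ|` is minimal among the integral equations of the
same curve over `ℚ`. -/
def Minimal (W : WeierstrassCurve ℤ) : Prop :=
  W.Δ ≠ 0 ∧ ∀ (W' : WeierstrassCurve ℤ) (C : VariableChange ℚ), C • base W ℚ = base W' ℚ →
    |W.Δ| ≤ |W'.Δ|

/-- The number of the affine points modulo `p`. -/
noncomputable def pts (W : WeierstrassCurve ℤ) (p : ℕ) : ℕ :=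
  Nat.card {P : ZMod p × ZMod p // (base W (ZMod p)).toAffine.Equation P.1 P.2}

/-- `a_p = p + 1 - #W(𝔽_p)`, the points counted with the point at infinity. -/
noncomputable def a (W : WeierstrassCurve ℤ) (p : ℕ) : ℤ := p - pts W p

/-- `L` is the L-function of the minimal equation `W`: it is entire, and for `Re s > 3/2` it is given by
the Euler product with the factors `(1 - a_p p^(-s) + p^(1 - 2 s))⁻¹` if `p` does not divide `Δ` and
`(1 - a_p p^(-s))⁻¹` otherwise. -/
def IsL (W : WeierstrassCurve ℤ) (L : ℂ → ℂ) : Prop :=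
  Differentiable ℂ L ∧ ∀ s : ℂ, 3 / 2 < s.re →
    HasProd (fun p : Nat.Primes => (1 - (a W p : ℂ) * ((p : ℕ) : ℂ) ^ (-s) +
      (if ((p : ℕ) : ℤ) ∣ W.Δ then 0 else ((p : ℕ) : ℂ) ^ (1 - 2 * s)))⁻¹) (L s)

/-- The point `P` of `W` over `ℚ_p` reduces to a singular point of the curve modulo `p`: the coordinates
are integral and both partial derivatives of `y² + a₁ x y + a₃ y - x³ - a₂ x² - a₄ x - a₆` are in the
maximal ideal. -/
def SingularReduction (W : WeierstrassCurve ℤ) (p : ℕ) [Fact p.Prime]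
    (P : (base W ℚ_[p]).toAffine.Point) : Prop :=
  ∃ x y h, P = Affine.Point.some x y h ∧ ‖x‖ ≤ 1 ∧ ‖y‖ ≤ 1 ∧
    ‖W.a₁ * y - (3 * x ^ 2 + 2 * W.a₂ * x + W.a₄)‖ < 1 ∧ ‖2 * y + W.a₁ * x + W.a₃‖ < 1

/-- `c p` is the Tamagawa number `[W(ℚ_p) : W⁰(ℚ_p)]` for all primes `p`, where `W⁰(ℚ_p)` is the subgroup
of the points which do not have singular reduction; it is `1` if `p` does not divide `Δ`. -/
def IsTamagawa (W : WeierstrassCurve ℤ) (c : ℕ → ℕ) : Prop :=
  ∀ (p : ℕ) [Fact p.Prime], (∃ H : AddSubgroup (base W ℚ_[p]).toAffine.Point,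
    (∀ P, P ∈ H ↔ ¬ SingularReduction W p P) ∧ H.index = c p) ∧ (¬ (p : ℤ) ∣ W.Δ → c p = 1)

/-- The product of the Tamagawa numbers. -/
noncomputable def Tam (W : WeierstrassCurve ℤ) (c : ℕ → ℕ) : ℕ := ∏ p ∈ W.Δ.natAbs.primeFactors, c p

/-- `4 x³ + b₂ x² + 2 b₄ x + b₆ = (2 y + a₁ x + a₃)²`. -/
def cubic (W : WeierstrassCurve ℤ) (x : ℝ) : ℝ := 4 * x ^ 3 + W.b₂ * x ^ 2 + 2 * W.b₄ * x + W.b₆

/-- `Ω = ∫_{W(ℝ)} |ω|` with `ω = dx / (2 y + a₁ x + a₃)`, as an integral over `x`: two real points lie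
over each `x` with `cubic x > 0`. -/
noncomputable def Omega (W : WeierstrassCurve ℤ) : ℝ :=
  2 * ∫ x in {x : ℝ | 0 < cubic W x}, 1 / √(cubic W x)

/-- The order of the torsion subgroup of `W(ℚ)`. -/
noncomputable def torsOrder (W : WeierstrassCurve ℤ) : ℕ :=
  Nat.card (AddCommGroup.torsion (base W ℚ).toAffine.Point)

/-- The order of the Tate-Shafarevich group predicted by the formula in rank zero, for the value `l` of
the L-function at `s = 1` and the Tamagawa numbers `c`: `l #W(ℚ)_tors² / (Ω ∏ c_p)`. -/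
noncomputable def anOrder (W : WeierstrassCurve ℤ) (l : ℂ) (c : ℕ → ℕ) : ℂ :=
  l * (torsOrder W : ℂ) ^ 2 / ((Omega W : ℝ) * (Tam W c : ℂ))

/-- The 2-part of the strong conjecture of Birch and Swinnerton-Dyer for `W` over `ℚ`, in the case that
the predicted order of `Ш` is a unit at two: `W` is minimal, `L(W, s)` is entire, `L(W, 1) ≠ 0`, `W(ℚ)`
is finite, the 2-primary part of `Ш(W/ℚ)` is zero, and the predicted order of `Ш` is a rational number
which is a unit at two. -/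
def TwoPart (W : WeierstrassCurve ℤ) : Prop :=
  Minimal W ∧ Finite (base W ℚ).toAffine.Point ∧
  (∀ (n : ℕ) (x : Sha (base W ℚ)), 2 ^ n • x = 0 → x = 0) ∧
  ∃ (L : ℂ → ℂ) (c : ℕ → ℕ) (z : ℚ), IsL W L ∧ L 1 ≠ 0 ∧ IsTamagawa W c ∧ 0 < Tam W c ∧
    0 < Omega W ∧ 0 < torsOrder W ∧ anOrder W (L 1) c = z ∧ z ≠ 0 ∧ padicValRat 2 z = 0

/-- The group `W(ℚ)` is finite and `Ш(W/ℚ)` has no element of order two. -/
def NoSelmer (W : WeierstrassCurve ℤ) : Prop :=
  Finite (base W ℚ).toAffine.Point ∧ ∀ x : Sha (base W ℚ), 2 • x = 0 → x = 0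

/-! ### The class of the twists -/

/-- the class of the numbers `M` -/
def InClass (M : ℤ) : Prop := M < 0 ∧ Squarefree M ∧ (M % 120 = 13 ∨ M % 120 = 37)

/-- the shifts for which the twist of `X_0(15)` is considered -/
def Has15 (g : ℤ) : Prop := g % 4 = 1 ∧ (g % 5 = 1 ∨ g % 5 = 4)

/-- the shifts for which the twist of `X_0(24)` is considered -/
def Has24 (g : ℤ) : Prop := g % 8 = 1

/-- the shifts -/
def IsShift (g : ℤ) : Prop := Squarefree g ∧ 0 < g ∧ g % 3 = 1 ∧ (Has15 g ∨ Has24 g)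

/-- `D` is the squarefree part of `N` -/
def SquarefreePart (D N : ℤ) : Prop := Squarefree D ∧ ∃ w : ℤ, w ≠ 0 ∧ N = D * w ^ 2

/-- The class group of the quadratic field `ℚ(√D)` has no element of order four. -/
def NoFour (D : ℤ) : Prop := ∀ (K : Type) [Field K] [NumberField K], Module.finrank ℚ K = 2 →
  (∃ a : K, a ^ 2 = (D : K)) →
  ∀ c : ClassGroup (NumberField.RingOfIntegers K), c ^ 4 = 1 → c ^ 2 = 1

/-- the number of the integers `D`, `|D| ≤ X`, with the property `Q` -/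
noncomputable def count (Q : ℤ → Prop) (X : ℕ) : ℕ :=
  ((Finset.Icc (-(X : ℤ)) X).filter Q).card

/-- The statement for `D` and the twist `W` by `D`. -/
def Criterion (D : ℤ) (W : WeierstrassCurve ℤ) : Prop :=
  Minimal W ∧
  (∃ (L : ℂ → ℂ) (c : ℕ → ℕ) (w : ℚ) (y : ℤ), IsL W L ∧ IsTamagawa W c ∧
    Tam W c = 4 ^ (D.natAbs.primeFactors.card + 1) ∧
    (∃ t : ℕ, Odd t ∧ torsOrder W = 4 * t) ∧ 0 < Omega W ∧
    w ≠ 0 ∧ padicValRat 2 w = 0 ∧ anOrder W (L 1) c = ((w * y ^ 2 : ℚ) : ℂ) ∧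
    (Odd y ↔ NoFour D)) ∧
  (NoSelmer W ↔ NoFour D) ∧
  (TwoPart W ↔ NoFour D)

/-- the pattern given by the set `S`: for all `t`, with the squarefree part `D` of `M g_t`, the 2-part holds for
the considered twists by `D` if `t ∈ S`, and for none of them if `t ∉ S` -/
def Pattern {k : ℕ} (g : Fin (k + 1) → ℤ) (S : Finset (Fin (k + 1))) (M : ℤ) : Prop :=
  ∀ t, ∃ D : ℤ, SquarefreePart D (M * g t) ∧
    (t ∈ S → (Has15 (g t) → TwoPart (twist15 D)) ∧ (Has24 (g t) → TwoPart (twist24 D))) ∧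
    (t ∉ S → (Has15 (g t) → ¬ TwoPart (twist15 D)) ∧ (Has24 (g t) → ¬ TwoPart (twist24 D)))

/-- the constant `η` -/
noncomputable def eta : ℝ := ∏' i : ℕ, (1 - (1 / 2 : ℝ) ^ (i + 1))

section proof

open Pool.Agent.Y700 (EQ)
open Pool.Agent.NH3.XD (KrD)
open Pool.Agent.XW.T (FullW)
open Pool.Agent.NH20.XM (CG SD split mod3 mod5 mod8 mul_mod3 mul_mod5 mul_mod8 nx_kr kr_noFour)
open Pool.Agent.NH4.XF (cz cz_congr')
open Pool.Agent.NH4.XG (nx)

lemma omega_eq (W : WeierstrassCurve ℤ) : Omega W = Pool.Agent.Y700.Omega W := by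
  unfold Omega Pool.Agent.Y700.Omega
  rw [← integral_const_mul]
  show ∫ x in {x : ℝ | 0 < Pool.Agent.Y700.psi W x}, 2 * (1 / √(Pool.Agent.Y700.psi W x)) = _
  congr 1
  funext x
  rw [mul_one_div]

/-- the Tamagawa numbers -/
noncomputable def cT (W : WeierstrassCurve ℤ) (p : ℕ) : ℕ :=
  if h : p.Prime then (haveI := Fact.mk h; Pool.Agent.Y700.tam W p) else 1

lemma isTam (W : WeierstrassCurve ℤ) : IsTamagawa W (cT W) := by
  intro p hp
  have hc : cT W p = Pool.Agent.Y700.tam W p := by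
    unfold cT
    rw [dif_pos hp.out]
  refine ⟨⟨Pool.Agent.Y700.E0 W p, fun P => ?_, by rw [hc]; rfl⟩, fun h => ?_⟩
  · rw [Pool.Agent.Y809.BSD14.t_E0 W p P]
    constructor
    · rintro h ⟨x, y, h1, rfl, h2⟩
      exact h x y h1 rfl h2
    · intro h x y h1 h2 h3
      exact h ⟨x, y, h1, h2, h3⟩
  · rw [hc]
    exact Pool.Agent.Y809.BSD14.t_TGOOD W p h

lemma two_iff {A : Type} [AddCommGroup A] : (∀ x : A, 2 • x = 0 → x = 0) ↔
    ∀ x : A, x + x = 0 → x = 0 := by
  refine forall_congr' fun x => ?_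
  rw [two_nsmul]

lemma two_pow {A : Type} [AddCommGroup A] (h : ∀ x : A, 2 • x = 0 → x = 0) (n : ℕ) :
    ∀ x : A, 2 ^ n • x = 0 → x = 0 := by
  induction n with
  | zero => intro x hx; rwa [pow_zero, one_nsmul] at hx
  | succ n ih =>
    intro x hx
    refine h x (ih _ ?_)
    rwa [← mul_nsmul', ← pow_succ]

lemma anOrder_eq {W : WeierstrassCurve ℤ} {l : ℂ} {q : ℝ} (hΩ : 0 < Omega W)
    (hT : 0 < Tam W (cT W)) (ht : 0 < torsOrder W)
    (hl : l = ((q * (Pool.Agent.Y700.Omega W * Pool.Agent.Y700.tamProd W /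
      (Nat.card (AddCommGroup.torsion (EQ W).toAffine.Point) : ℝ) ^ 2) : ℝ) : ℂ)) :
    anOrder W l (cT W) = (q : ℂ) := by
  have e1 : Pool.Agent.Y700.Omega W = Omega W := (omega_eq _).symm
  have e2 : Pool.Agent.Y700.tamProd W = Tam W (cT W) := rfl
  have e3 : Nat.card (AddCommGroup.torsion (EQ W).toAffine.Point) = torsOrder W := rfl
  rw [e1, e2, e3] at hl
  have h1 : (Omega W : ℂ) ≠ 0 := by exact_mod_cast hΩ.ne'
  have h2 : ((Tam W (cT W) : ℕ) : ℂ) ≠ 0 := by exact_mod_cast hT.ne'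
  have h3 : ((torsOrder W : ℕ) : ℂ) ≠ 0 := by exact_mod_cast ht.ne'
  unfold anOrder
  rw [hl]
  push_cast
  field_simp

/-- the criterion for one curve -/
theorem criterion {D : ℤ} {W : WeierstrassCurve ℤ} {K : Prop} (hK : K ↔ NoFour D)
    (hF : FullW W K) (hΩ' : 0 < Pool.Agent.Y700.Omega W)
    (htam : Pool.Agent.Y700.tamProd W = 4 ^ (D.natAbs.primeFactors.card + 1))
    (htor : ∃ k : ℕ, Odd k ∧
      Nat.card (AddCommGroup.torsion (EQ W).toAffine.Point) = 4 * k) :
    Criterion D W ∧ (TwoPart W ↔ K) := by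
  obtain ⟨hmin, ⟨f, hf⟩, y, hy1, hy2, hv⟩ := hF
  obtain ⟨k, hk, htor⟩ := htor
  obtain ⟨hv1, w, hw0, hw, hval⟩ := hv f hf
  have hΩ : 0 < Omega W := by rw [omega_eq]; exact hΩ'
  have htam' : Tam W (cT W) = 4 ^ (D.natAbs.primeFactors.card + 1) := htam
  have htor' : torsOrder W = 4 * k := htor
  have hT : 0 < Tam W (cT W) := by
    rw [htam']
    exact pow_pos (by norm_num) _
  have hto : 0 < torsOrder W := by
    rw [htor']
    exact Nat.mul_pos (by norm_num) hk.pos
  have han : anOrder W (f 1) (cT W) = ((w * (y : ℚ) ^ 2 : ℚ) : ℂ) := by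
    have := anOrder_eq (q := (w : ℝ) * (y : ℝ) ^ 2) hΩ hT hto hval
    rw [this]
    push_cast
    rfl
  have hns : NoSelmer W ↔ K := by
    have h1 : NoSelmer W ↔ (Finite (EQ W).toAffine.Point ∧ ∀ x : Sha (EQ W), x + x = 0 → x = 0) :=
      and_congr Iff.rfl two_iff
    rw [h1]
    exact hy1.symm.trans hy2
  have htp : TwoPart W ↔ K := by
    refine ⟨fun hp => hns.1 ⟨hp.2.1, fun x hx => hp.2.2.1 1 x ?_⟩, fun hd => ?_⟩
    · rwa [pow_one]
    · have h5 := hns.2 hd
      have hyo : Odd y := hy2.2 hd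
      have hy0 : y ≠ 0 := by
        rintro rfl
        exact absurd hyo (by decide)
      have hyq : (y : ℚ) ≠ 0 := by exact_mod_cast hy0
      refine ⟨hmin, h5.1, fun n => two_pow h5.2 n, f, cT W, w * (y : ℚ) ^ 2, hf, hv1 hy0,
        isTam _, hT, hΩ, hto, han, mul_ne_zero hw0 (pow_ne_zero 2 hyq), ?_⟩
      have hy2 : padicValRat 2 ((y : ℚ)) = 0 := by
        rw [padicValRat.of_int]
        have : padicValInt 2 y = 0 := by
          refine padicValInt.eq_zero_of_not_dvd ?_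
          intro hd
          have h5 := Int.odd_iff.1 hyo
          omega
        rw [this]
        rfl
      have : Fact (Nat.Prime 2) := ⟨Nat.prime_two⟩
      rw [padicValRat.mul hw0 (pow_ne_zero 2 hyq), hw, padicValRat.pow, hy2]
      simp
  exact ⟨⟨hmin, ⟨f, cT W, w, y, hf, isTam _, htam', ⟨k, hk, htor'⟩, hΩ, hw0, hw, han,
    hy2.trans hK⟩, hns.trans hK, htp.trans hK⟩, htp⟩

theorem mod4 {D w x : ℤ} (h : D * w ^ 2 = x) (hx : x % 4 = 1) : D % 4 = 1 := by
  have h1 : (D * w ^ 2) % 4 = 1 := by rw [h]; exact hx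
  have h2 : w % 4 = 0 ∨ w % 4 = 1 ∨ w % 4 = 2 ∨ w % 4 = 3 := by omega
  have h3 : D % 4 = 0 ∨ D % 4 = 1 ∨ D % 4 = 2 ∨ D % 4 = 3 := by omega
  rcases h2 with h2 | h2 | h2 | h2 <;> rcases h3 with h3 | h3 | h3 | h3 <;>
    simp [Int.mul_emod, pow_two, h2, h3] at h1 ⊢

theorem shift_cg {g : ℤ} (h : IsShift g) : CG g := by
  obtain ⟨h1, h2, h3, h4⟩ := h
  refine ⟨h1, h2, h3, ?_⟩
  rcases h4 with ⟨-, h4 | h4⟩ | h4
  · exact Or.inl h4
  · exact Or.inr (Or.inl h4)
  · exact Or.inr (Or.inr h4)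

/-- the facts on the squarefree part -/
theorem part {M g D : ℤ} (hM : InClass M) (hg : IsShift g) (hD : SquarefreePart D (M * g)) :
    D < 0 ∧ D % 4 = 1 ∧ D % 3 = 1 ∧ (Has15 g → D % 5 = 2 ∨ D % 5 = 3) ∧ (Has24 g → D % 8 = 5) ∧
      D.natAbs.primeFactors = SD M g := by
  obtain ⟨hM1, hM2, hM3⟩ := hM
  obtain ⟨hg1, hg2, hg3, hg4⟩ := hg
  obtain ⟨D', w, h1, h2, h3, h4, h6, h7⟩ := split hM1 hM2 hg2 hg1
  obtain ⟨hs, v, hv, he⟩ := hD
  have hDD : D = D' := Pool.Agent.NH4.PF.sqf_unique hs h2 hv h4.ne' (by rw [← he, h7])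
  have hw3 : w % 3 ≠ 0 := by
    intro h0
    obtain ⟨c, rfl⟩ := h6
    have : (w * c) % 3 = 0 := by simp [Int.mul_emod, h0]
    omega
  have hg4' : g % 4 = 1 := by
    rcases hg4 with hg4 | hg4
    · exact hg4.1
    · unfold Has24 at hg4
      omega
  have hm4 : (M * g) % 4 = 1 := by
    have : M % 4 = 1 := by omega
    simp [Int.mul_emod, this, hg4']
  rw [hDD]
  exact ⟨h1, mod4 h7.symm hm4, mod3 h7.symm hw3 (mul_mod3 (by omega) hg3),
    fun h => mod5 h7.symm (mul_mod5 (by omega) h.2), fun h => mod8 h7.symm (mul_mod8 (by omega) h), h3⟩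

theorem main15 {M g D : ℤ} (hM : InClass M) (hg : IsShift g) (hD : SquarefreePart D (M * g))
    (h : Has15 g) : Criterion D (twist15 D) ∧ (TwoPart (twist15 D) ↔ nx (SD M g) = 2) := by
  obtain ⟨h0, h4, h3, h5, h8, hpf⟩ := part hM hg hD
  have h5' := h5 h
  have hDB : Pool.Agent.NH3.XD.DB D := ⟨h0, hD.1, by omega⟩
  have hK : KrD D ↔ NoFour D := kr_noFour h0 hD.1 h4 (by omega)
  have hN : nx (SD M g) = 2 ↔ KrD D := by
    rw [← hpf]
    exact nx_kr h0 hD.1 h4
  obtain ⟨g1, -, -, -, g5, g6, g7⟩ := Pool.Agent.XV.T.out D hDB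
  obtain ⟨k1, k2⟩ := criterion hK g1 g5 g6 g7
  exact ⟨k1, k2.trans hN.symm⟩

theorem main24 {M g D : ℤ} (hM : InClass M) (hg : IsShift g) (hD : SquarefreePart D (M * g))
    (h : Has24 g) : Criterion D (twist24 D) ∧ (TwoPart (twist24 D) ↔ nx (SD M g) = 2) := by
  obtain ⟨h0, h4, h3, h5, h8, hpf⟩ := part hM hg hD
  have h8' := h8 h
  have hK : KrD D ↔ NoFour D := kr_noFour h0 hD.1 h4 (by omega)
  have hN : nx (SD M g) = 2 ↔ KrD D := by
    rw [← hpf]
    exact nx_kr h0 hD.1 h4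
  obtain ⟨g1, g5, g6, g7⟩ := Pool.Agent.X24.F.full24 h0 hD.1 (by omega)
  obtain ⟨k1, k2⟩ := criterion hK g1 g5 g6 g7
  exact ⟨k1, k2.trans hN.symm⟩

theorem pattern_iff {k : ℕ} {g : Fin (k + 1) → ℤ} (hg : ∀ t, IsShift (g t))
    (S : Finset (Fin (k + 1))) {M : ℤ} (hM : InClass M) :
    Pattern g S M ↔ ∀ t, nx (SD M (g t)) = 2 ↔ t ∈ S := by
  unfold Pattern
  refine forall_congr' fun t => ?_
  constructor
  · rintro ⟨D, hD, h1, h2⟩
    by_cases ht : t ∈ S
    · refine iff_of_true ?_ ht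
      rcases (hg t).2.2.2 with h | h
      · exact (main15 hM (hg t) hD h).2.1 ((h1 ht).1 h)
      · exact (main24 hM (hg t) hD h).2.1 ((h1 ht).2 h)
    · refine iff_of_false ?_ ht
      rcases (hg t).2.2.2 with h | h
      · exact fun h3 => (h2 ht).1 h ((main15 hM (hg t) hD h).2.2 h3)
      · exact fun h3 => (h2 ht).2 h ((main24 hM (hg t) hD h).2.2 h3)
  · intro h
    obtain ⟨D, w, h1, h2, h3, h4, h6, h7⟩ := split hM.1 hM.2.1 (hg t).2.1 (hg t).1
    have hD : SquarefreePart D (M * g t) := ⟨h2, w, h4.ne', h7⟩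
    refine ⟨D, hD, fun ht => ⟨fun h5 => ?_, fun h5 => ?_⟩, fun ht => ⟨fun h5 h8 => ?_, fun h5 h8 => ?_⟩⟩
    · exact (main15 hM (hg t) hD h5).2.2 (h.2 ht)
    · exact (main24 hM (hg t) hD h5).2.2 (h.2 ht)
    · exact ht (h.1 ((main15 hM (hg t) hD h5).2.1 h8))
    · exact ht (h.1 ((main24 hM (hg t) hD h5).2.1 h8))

theorem count_cz {Q : ℤ → Prop} (h : ∀ M, Q M → Squarefree M) (X : ℕ) : (count Q X : ℝ) = cz Q X := by
  unfold count cz
  congr 2
  ext M
  simp only [Finset.mem_filter]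
  exact and_congr_right fun _ => ⟨fun h1 => ⟨h M h1, h1⟩, fun h1 => h1.2⟩

end proof

open Pool.Agent.NH20.XM Pool.Agent.NH4.XF in
/-- **Main theorem.** -/
theorem result :
    (∀ M g D : ℤ, InClass M → IsShift g → SquarefreePart D (M * g) →
      (Has15 g → Criterion D (twist15 D)) ∧ (Has24 g → Criterion D (twist24 D))) ∧
    (0.2887 < eta ∧ eta < 0.2888) ∧
    ∀ (k : ℕ) (g : Fin (k + 1) → ℤ), (∀ t, IsShift (g t)) → Function.Injective g →
      ∀ S : Finset (Fin (k + 1)),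
      Tendsto (fun X : ℕ => (count (fun M => InClass M ∧ Pattern g S M) X : ℝ) / X) atTop
        (𝓝 (5 / (32 * Real.pi ^ 2) * (eta ^ S.card * (1 - eta) ^ (k + 1 - S.card)))) ∧
      ∀ (m : ℕ) (T : Finset ℤ), 0 < m → (∃ M, InClass M ∧ M % m ∈ T) →
        Tendsto (fun X : ℕ =>
          (count (fun M => (InClass M ∧ M % m ∈ T) ∧ Pattern g S M) X : ℝ) /
          (count (fun M => InClass M ∧ M % m ∈ T) X : ℝ)) atTop
          (𝓝 (eta ^ S.card * (1 - eta) ^ (k + 1 - S.card))) ∧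
        ∃ (c : ℝ) (X₀ : ℕ), 0 < c ∧ ∀ X : ℕ, X₀ ≤ X → c * X ≤
          (count (fun M => (InClass M ∧ M % m ∈ T) ∧ Pattern g S M) X : ℝ) := by
  have he1 : (0.2887 : ℝ) < eta := Pool.Agent.NH5.PR.t_ETA.2.2.2.1
  have he2 : eta < (0.2888 : ℝ) := Pool.Agent.NH5.PR.t_ETA.2.2.2.2
  refine ⟨fun M g D hM hg hD => ⟨fun h => (main15 hM hg hD h).1, fun h => (main24 hM hg hD h).1⟩,
    ⟨he1, he2⟩, fun k g hg hi S => ?_⟩
  have hlaw : ∀ (m : ℕ) (T : Finset ℤ), 0 < m → (∃ M, InClass M ∧ M % m ∈ T) →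
      Tendsto (fun X : ℕ => cz (fun M => (InClass M ∧ M % m ∈ T) ∧ Pattern g S M) X /
        cz (fun M => InClass M ∧ M % m ∈ T) X) atTop
        (𝓝 (eta ^ S.card * (1 - eta) ^ (k + 1 - S.card))) := by
    intro m T hm hne
    have h1 := law2 (fun t => shift_cg (hg t)) hi hm (T : Set ℤ) hne
      (P := fun t M => Pool.Agent.NH4.XG.nx (SD M (g t)) = 2) (fun t M _ => Iff.rfl) S
    refine h1.congr fun X => ?_
    refine congrArg₂ (· / ·) ?_ rfl
    exact cz_congr' (fun M _ => and_congr_right fun h2 => (pattern_iff hg S h2.1).symm) X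
  constructor
  · have h1 := hlaw 1 {0} one_pos ⟨-83, ⟨by norm_num, by
      rw [← Int.squarefree_natAbs]
      exact (by norm_num : Nat.Prime 83).squarefree, by norm_num⟩, by simp⟩
    have e1 : ∀ X : ℕ, cz (fun M => (InClass M ∧ M % ((1 : ℕ) : ℤ) ∈ ({0} : Finset ℤ)) ∧
        Pattern g S M) X = cz (fun M => InClass M ∧ Pattern g S M) X := fun X =>
      cz_congr' (fun M _ => by simp) X
    have e2 : ∀ X : ℕ, cz (fun M => InClass M ∧ M % ((1 : ℕ) : ℤ) ∈ ({0} : Finset ℤ)) X =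
        cz Pool.Agent.NH4.XI.CM X := fun X => cz_congr' (fun M hM => by
      unfold InClass Pool.Agent.NH4.XI.CM
      simp only [Nat.cast_one, Int.emod_one, Finset.mem_singleton, and_true]
      tauto) X
    simp only [e1, e2] at h1
    refine (Pool.Agent.NH4.XI.count_form h1).congr fun X => ?_
    rw [count_cz (fun M hM => hM.1.2.1)]
  · intro m T hm hne
    have h1 := hlaw m T hm hne
    have e1 : ∀ X : ℕ, (count (fun M => (InClass M ∧ M % m ∈ T) ∧ Pattern g S M) X : ℝ) =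
        cz (fun M => (InClass M ∧ M % m ∈ T) ∧ Pattern g S M) X := count_cz fun M hM => hM.1.1.2.1
    have e2 : ∀ X : ℕ, (count (fun M => InClass M ∧ M % m ∈ T) X : ℝ) =
        cz (fun M => InClass M ∧ M % m ∈ T) X := count_cz fun M hM => hM.1.2.1
    simp only [e1, e2]
    refine ⟨h1, Pool.Agent.NH4.XI.low_of ?_ h1 ?_⟩
    · have : 0 < 1 - eta := by linarith
      have : 0 < eta := by linarith
      positivity
    · obtain ⟨M0, hM0, hM0T⟩ := hne
      obtain ⟨κ, X₀, hκ, h2⟩ := Pool.Agent.NH4.XI.low_CT hm (T := T)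
        ⟨M0, ⟨hM0.2.1, hM0.1, hM0.2.2⟩, hM0T⟩
      refine ⟨κ, X₀, hκ, fun X hX => (h2 X hX).trans (le_of_eq ?_)⟩
      refine cz_congr' (fun M hM => ?_) X
      unfold Pool.Agent.NH4.XI.CT Pool.Agent.NH4.XI.CM InClass
      tauto

end Pool.Agent.Results.MP_4a9ea6_nt.JointTwoPartX15X24
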