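import Pool.Agent.NH5.PR.Trl
import Pool.Agent.Results.MP_4a9ea6_nt.CompleteTwoPartX14

/-!
# The 2-part of the strong conjecture of Birch and Swinnerton-Dyer for an exact proportion `0.2887…` of the
# quadratic twists of `X_0(14)` in a class of at least `c X / √(log log X)` discriminants up to `X`

`E_D` is the quadratic twist by `D` of the modular curve `X_0(14)`, which has no complex multiplication.
The class consists of all squarefree `D ≠ 1`, positive or negative, `D ≡ 1 mod 4`, prime to `7`, with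
`nA D = nB D`: as many prime factors which are split in `ℚ(√2)` and inert in `ℚ(√-7)` as prime factors which
are inert in `ℚ(√2)` and split in `ℚ(√-7)`. There is no other restriction on the prime factors. The number
of these `D` with `|D| ≤ X` is at least `c X / √(log log X)`, so that the class has almost a positive density.

The 2-part of the conjecture holds in the case of a predicted order of `Ш` which is a unit at two
(`TwoPart`: `L(E_D, 1) ≠ 0`, `E_D(ℚ)` is finite, `Ш(E_D/ℚ)[2^∞] = 0` and the predicted order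
`L(E_D, 1) #E_D(ℚ)_tors² / (Ω ∏ c_p)` of `Ш` is a rational number which is a unit at two) for a proportion
of the `D` of the class, in the order of `|D|`, which tends to `∏_{i ≥ 1} (1 - 2^{-i}) = 0.2887…`. The same
is true for the positive, for the negative `D`, for the `D` in any set of odd residue classes modulo `8`, and
for those which are prime to any given integer `m`. For the other `D` of the class `E_D(ℚ)` is infinite
or `Ш(E_D/ℚ)[2] ≠ 0`. The criterion for one `D` is in `CompleteTwoPartX14`.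
-/

set_option autoImplicit false

open Filter Topology

namespace Pool.Agent.Results.MP_4a9ea6_nt.TwoPartNaturalOrder

open Pool.Agent.Results.MP_4a9ea6_nt.CompleteTwoPartX14 (twist TwoPart NoSelmer Sq2 Sq7 nA nB)

/-- the class of the discriminants, positive and negative -/
def InClass (D : ℤ) : Prop := D ≠ 1 ∧ Squarefree D ∧ D % 4 = 1 ∧ ¬ (7 : ℤ) ∣ D ∧ nA D = nB D

open Classical in
/-- the number of the integers `D`, `|D| ≤ X`, with the property `Q` -/
noncomputable def count (Q : ℤ → Prop) (X : ℕ) : ℕ :=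
  ((Finset.Icc (-(X : ℤ)) X).filter Q).card

section proof

open Pool.Agent.NH5.PR
open Pool.Agent.NH5.LK (NoSel)
open Pool.Agent.Results.MP_4a9ea6_nt.CompleteTwoPartX14 (nA_eq nB_eq criterion noSelmer_iff)

theorem count_eq (Q : ℤ → Prop) (X : ℕ) : count Q X = ct Q X := rfl

theorem inClass_iff (D : ℤ) : InClass D ↔ D ≠ 1 ∧ Bal D := by
  unfold InClass Bal
  rw [nA_eq, nB_eq]
  exact Iff.rfl

theorem two_iff {D : ℤ} (h : InClass D) : (TwoPart (twist D) ↔ NoSelmer (twist D)) ∧
    (TwoPart (twist D) ↔ NoSel D) := by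
  obtain ⟨h1, hs, h4, h7, hc⟩ := h
  obtain ⟨-, -, h8, h9⟩ := criterion (D := D) ⟨h1, hs, h4, h7, le_of_eq hc.symm, by omega⟩
  refine ⟨h9.trans h8.symm, (h9.trans h8.symm).trans ?_⟩
  rw [noSelmer_iff, Pool.Agent.NH5.LK.nosel_iff h4]

end proof

open Pool.Agent.NH5.PR in
/-- **Main theorem.** -/
theorem result :
    (∀ D : ℤ, InClass D → (TwoPart (twist D) ↔ NoSelmer (twist D))) ∧
    (0.2887 < ∏' i : ℕ, (1 - (1 / 2 : ℝ) ^ (i + 1)) ∧ ∏' i : ℕ, (1 - (1 / 2 : ℝ) ^ (i + 1)) < 0.2888) ∧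
    ∀ (m : ℕ) (R : Finset ℕ), 0 < m → R.Nonempty → R ⊆ {1, 3, 5, 7} →
      Tendsto (fun X : ℕ =>
        (count (fun D => InClass D ∧ Int.gcd D m = 1 ∧ D.natAbs % 8 ∈ R ∧ TwoPart (twist D)) X : ℝ) /
        (count (fun D => InClass D ∧ Int.gcd D m = 1 ∧ D.natAbs % 8 ∈ R) X : ℝ)) atTop
        (𝓝 (∏' i : ℕ, (1 - (1 / 2 : ℝ) ^ (i + 1)))) ∧
      ∃ (c : ℝ) (X₀ : ℕ), 0 < c ∧ ∀ X : ℕ, X₀ ≤ X → c * X / Real.sqrt (Real.log (Real.log X)) ≤
        (count (fun D => InClass D ∧ Int.gcd D m = 1 ∧ D.natAbs % 8 ∈ R ∧ TwoPart (twist D)) X : ℝ) := by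
  refine ⟨fun D h => (two_iff h).1, ⟨t_ETA.2.2.2.1, t_ETA.2.2.2.2⟩, fun m R hm hR hR8 => ?_⟩
  have hR8' : ∀ r ∈ R, r = 1 ∨ r = 3 ∨ r = 5 ∨ r = 7 := by
    intro r hr
    have := hR8 hr
    simpa using this
  obtain ⟨h1, c, X₀, hc, h2⟩ := law' hm hR hR8'
  have e : ∀ X : ℕ, ct (fun D => D ≠ 1 ∧ (Bal D ∧ Int.gcd D m = 1 ∧ Pool.Agent.NH5.LK.NoSel D) ∧
      D.natAbs % 8 ∈ R) X = ct (fun D => InClass D ∧ Int.gcd D m = 1 ∧ D.natAbs % 8 ∈ R ∧
        TwoPart (twist D)) X := by
    intro X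
    refine ct_congr (fun D => ?_) X
    constructor
    · rintro ⟨g1, ⟨g2, g3, g4⟩, g5⟩
      have g6 : InClass D := (inClass_iff D).2 ⟨g1, g2⟩
      exact ⟨g6, g3, g5, (two_iff g6).2.2 g4⟩
    · rintro ⟨g6, g3, g5, g7⟩
      have g8 := (inClass_iff D).1 g6
      exact ⟨g8.1, ⟨g8.2, g3, (two_iff g6).2.1 g7⟩, g5⟩
  refine ⟨?_, c, X₀, hc, fun X hX => ?_⟩
  · refine h1.congr fun X => ?_
    rw [count_eq, count_eq, e X]
    congr 2
    refine ct_congr (fun D => ?_) X
    rw [inClass_iff]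
    tauto
  · have := h2 X hX
    rw [e X] at this
    exact this

end Pool.Agent.Results.MP_4a9ea6_nt.TwoPartNaturalOrder
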